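import Pool.Agent.Q127.DJ.Stm

/-!
# Project DJ (helper127), job CNV (helper139): the covariances `A (t, k)` converge
-/

set_option autoImplicit false

namespace Pool.Agent.Q139.DJ_CNV

open Pool.Agent.Q127.DJ MeasureTheory Filter Topology

theorem S_iter (t : ℕ) (x : ℕ → ℕ) (n : ℕ) : (S^[t] x) n = x (n + t) := by
  induction t generalizing x with
  | zero => rfl
  | succ t ih =>
    rw [Function.iterate_succ_apply, ih]
    rfl

theorem I_iter {m : ℕ} (f : ℕ → Fin m) (a : Fin m) (t k : ℕ) (x : ℕ → ℕ) :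
    I f a k (S^[t] x) = I f a (t + k) x := by
  unfold I
  rw [S_iter, Nat.add_comm k t]

theorem bm_I {m : ℕ} (f : ℕ → Fin m) (a : Fin m) (s : ℕ) : BM 1 (I f a s) := by
  refine ⟨?_, fun x => ?_⟩
  · have h : Measurable (fun n : ℕ => if f n = a then (1 : ℝ) else 0) := measurable_from_nat
    exact h.comp (measurable_pi_apply s)
  · unfold I
    split_ifs <;> simp

theorem bm_int {μ : Measure (ℕ → ℕ)} [IsProbabilityMeasure μ] {C : ℝ} {φ : (ℕ → ℕ) → ℝ}
    (h : BM C φ) : Integrable φ μ :=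
  Integrable.of_bound h.1.aestronglyMeasurable C
    (ae_of_all _ fun x => by rw [Real.norm_eq_abs]; exact h.2 x)

theorem bm_mul {C C' : ℝ} (hC : 0 ≤ C) {φ ψ : (ℕ → ℕ) → ℝ} (h : BM C φ) (h' : BM C' ψ) :
    BM (C * C') (fun x => φ x * ψ x) :=
  ⟨h.1.mul h'.1, fun x => by
    rw [abs_mul]
    exact mul_le_mul (h.2 x) (h'.2 x) (abs_nonneg _) hC⟩

theorem E_lin (μ : Measure (ℕ → ℕ)) [IsProbabilityMeasure μ] {m : ℕ} (f : ℕ → Fin m) (t : ℕ)
    {C C' : ℝ} {φ ψ : (ℕ → ℕ) → ℝ} (h : BM C φ) (h' : BM C' ψ) (c : ℝ) (x : ℕ → ℕ) :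
    E μ f t (fun y => φ y + c * ψ y) x = E μ f t φ x + c * E μ f t ψ x := by
  unfold E
  rw [integral_add (bm_int h).integrableOn ((bm_int h').const_mul c).integrableOn,
    integral_const_mul]
  ring

theorem cnv (h1 : S_ce1) (h2 : S_ce2) (_h3 : S_inn) (h4 : S_mon) : S_cnv := by
  intro μ _ hS m f a k
  have hI := fun s => bm_I f a s
  have hφ : ∀ (c : ℝ), |c| ≤ 1 → ∀ t, BM 2 (fun y => I f a t y + c * I f a (t + k) y) := by
    intro c hc t
    refine ⟨(hI t).1.add ((hI (t + k)).1.const_mul c), fun x => ?_⟩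
    have h5 := (hI t).2 x
    have h6 := (hI (t + k)).2 x
    have h7 : |c * I f a (t + k) x| ≤ 1 := by
      rw [abs_mul]
      calc |c| * |I f a (t + k) x| ≤ 1 * 1 := mul_le_mul hc h6 (abs_nonneg _) zero_le_one
        _ = 1 := one_mul 1
    have h8 := abs_add_le (I f a t x) (c * I f a (t + k) x)
    linarith
  have hM : ∀ (c : ℝ), |c| ≤ 1 → ∃ l, Tendsto
      (fun t => ∫ x, (E μ f t (fun y => I f a t y + c * I f a (t + k) y) x) ^ 2 ∂μ) atTop (𝓝 l) := by
    intro c hc
    have hmono : Monotone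
        (fun t => ∫ x, (E μ f t (fun y => I f a t y + c * I f a (t + k) y) x) ^ 2 ∂μ) := by
      have h := h4 μ hS m f 2 (fun y => I f a 0 y + c * I f a (0 + k) y) (hφ c hc 0)
      have h' : (fun t => ∫ x, (E μ f t (fun y => I f a t y + c * I f a (t + k) y) x) ^ 2 ∂μ) =
          (fun t => ∫ x, (E μ f t (fun y => (fun y => I f a 0 y + c * I f a (0 + k) y)
            (S^[t] y)) x) ^ 2 ∂μ) := by
        funext t
        have h'' : (fun y => I f a t y + c * I f a (t + k) y) =
            (fun y => (fun y => I f a 0 y + c * I f a (0 + k) y) (S^[t] y)) := by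
          funext y
          simp only [I_iter, Nat.zero_add, Nat.add_zero]
        rw [h'']
      rw [h']
      exact h
    refine ⟨_, tendsto_atTop_ciSup hmono ⟨4, ?_⟩⟩
    rintro _ ⟨t, rfl⟩
    obtain ⟨-, hb⟩ := h1 μ m f t 2 _ zero_le_two (hφ c hc t)
    have hb2 := bm_mul zero_le_two hb hb
    calc ∫ x, (E μ f t (fun y => I f a t y + c * I f a (t + k) y) x) ^ 2 ∂μ
        ≤ ∫ _x, (4 : ℝ) ∂μ := by
          refine integral_mono ?_ (integrable_const _) fun x => ?_
          · have := bm_int (μ := μ) hb2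
            simpa only [sq] using this
          · have h5 := hb2.2 x
            have h6 := le_abs_self (E μ f t (fun y => I f a t y + c * I f a (t + k) y) x *
              E μ f t (fun y => I f a t y + c * I f a (t + k) y) x)
            simp only [sq]
            norm_num at h5
            linarith
      _ = 4 := by simp
  obtain ⟨l1, hl1⟩ := hM 1 (by simp)
  obtain ⟨l2, hl2⟩ := hM (-1) (by simp)
  have hE : ∀ t s, Dep f t (E μ f t (I f a s)) ∧ BM 1 (E μ f t (I f a s)) := fun t s =>
    h1 μ m f t 1 _ zero_le_one (hI s)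
  have key : ∀ t, A μ f a t k = (∫ x, I f a 0 x * I f a k x ∂μ) -
      ((∫ x, (E μ f t (fun y => I f a t y + 1 * I f a (t + k) y) x) ^ 2 ∂μ) -
        ∫ x, (E μ f t (fun y => I f a t y + (-1) * I f a (t + k) y) x) ^ 2 ∂μ) / 4 := by
    intro t
    have e1 : ∫ x, I f a t x * I f a (t + k) x ∂μ = ∫ x, I f a 0 x * I f a k x ∂μ := by
      have hp := hS.iterate t
      have hm : Measurable (fun x => I f a 0 x * I f a k x) := (hI 0).1.mul (hI k).1
      calc ∫ x, I f a t x * I f a (t + k) x ∂μ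
          = ∫ x, (fun x => I f a 0 x * I f a k x) (S^[t] x) ∂μ := by
            refine integral_congr_ae (ae_of_all _ fun x => ?_)
            simp only [I_iter, Nat.add_zero]
        _ = ∫ x, I f a 0 x * I f a k x ∂(μ.map S^[t]) :=
            (integral_map hp.measurable.aemeasurable hm.aestronglyMeasurable).symm
        _ = ∫ x, I f a 0 x * I f a k x ∂μ := by rw [hp.map_eq]
    have e2 : ∫ x, E μ f t (I f a t) x * I f a (t + k) x ∂μ =
        ∫ x, E μ f t (I f a t) x * E μ f t (I f a (t + k)) x ∂μ :=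
      (h2 μ m f t 1 1 _ _ (hI (t + k)) (hE t t).2 (hE t t).1).symm
    have i1 : Integrable (fun x => I f a t x * I f a (t + k) x) μ :=
      bm_int (bm_mul zero_le_one (hI t) (hI (t + k)))
    have i2 : Integrable (fun x => E μ f t (I f a t) x * I f a (t + k) x) μ :=
      bm_int (bm_mul zero_le_one (hE t t).2 (hI (t + k)))
    have e3 : A μ f a t k = (∫ x, I f a t x * I f a (t + k) x ∂μ) -
        ∫ x, E μ f t (I f a t) x * I f a (t + k) x ∂μ := by
      rw [← integral_sub i1 i2]
      unfold A g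
      refine integral_congr_ae (ae_of_all _ fun x => ?_)
      simp only
      ring
    have j : ∀ c : ℝ, |c| ≤ 1 → Integrable
        (fun x => (E μ f t (fun y => I f a t y + c * I f a (t + k) y) x) ^ 2) μ := by
      intro c hc
      have hb := (h1 μ m f t 2 _ zero_le_two (hφ c hc t)).2
      have := bm_int (μ := μ) (bm_mul zero_le_two hb hb)
      simpa only [sq] using this
    have e4 : (∫ x, (E μ f t (fun y => I f a t y + 1 * I f a (t + k) y) x) ^ 2 ∂μ) -
        (∫ x, (E μ f t (fun y => I f a t y + (-1) * I f a (t + k) y) x) ^ 2 ∂μ) =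
        4 * ∫ x, E μ f t (I f a t) x * E μ f t (I f a (t + k)) x ∂μ := by
      rw [← integral_sub (j 1 (by simp)) (j (-1) (by simp)), ← integral_const_mul]
      refine integral_congr_ae (ae_of_all _ fun x => ?_)
      simp only [E_lin μ f t (hI t) (hI (t + k))]
      ring
    rw [e4, e3, e1, e2]
    ring
  refine ⟨(∫ x, I f a 0 x * I f a k x ∂μ) - (l1 - l2) / 4, ?_⟩
  simp only [key]
  exact tendsto_const_nhds.sub ((hl1.sub hl2).div_const 4)

end Pool.Agent.Q139.DJ_CNV
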